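import Pool.Agent.MP_e50591_al.H22.Glue

namespace Pool.Agent.Results.MP_e50591_al.Torsion

open Pool.Agent.MP_e50591_al.H50 Pool.Agent.MP_e50591_al.H22

/-- Membership in the monoid generated by the initial subwords of `w` is decidable in the
one-relator group of `w` whenever the reduced word `w` is a proper power. -/
theorem result :
    ∀ (n : ℕ) (w : List (Fin n × Bool)), w ≠ [] → FreeGroup.reduce w = w →
      (∃ (v : List (Fin n × Bool)) (k : ℕ), 2 ≤ k ∧ w = (List.replicate k v).flatten) →
      ComputablePred (fun u : List (Fin n × Bool) =>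
        PresentedGroup.mk ({FreeGroup.mk w} : Set (FreeGroup (Fin n))) (FreeGroup.mk u) ∈
          Submonoid.closure
            ((fun p : List (Fin n × Bool) =>
                PresentedGroup.mk ({FreeGroup.mk w} : Set (FreeGroup (Fin n))) (FreeGroup.mk p)) ''
              {p | p ∈ w.inits})) := by
  rintro n w hne hw ⟨v, k, hk, e⟩
  obtain ⟨m, _, U, D, h1, h2, h3, h4, h5⟩ := exists_prim2 (u := v)
    (by rintro rfl; simp [e] at hne) hk (e ▸ FreeGroup.IsReduced.of_reduce_eq hw)
  obtain ⟨K, _, κ, eh, h⟩ := exists_stk h1 h2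
  rw [← e] at h5
  subst h5
  have hφ : ∀ g, PresentedGroup.mk ({FreeGroup.mk (seg U 0 D)} : Set (FreeGroup (Fin n))) g = 1 ↔
      g ∈ Subgroup.normalClosure {FreeGroup.mk (seg U 0 D)} := fun g => QuotientGroup.eq_one_iff g
  have := Nat.pos_of_neZero m
  rw [← PM_eq (by omega) h4 ((hφ _).2 (Subgroup.subset_normalClosure rfl))]
  exact decide_PM2 h h3 h4 hφ

end Pool.Agent.Results.MP_e50591_al.Torsion
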